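import Pool.Agent.Q285.SD.Struct
import Pool.Agent.TH858.GP.Coset

/-!
Sets of small doubling in `ℤ/N` are dense on a translate of a proper progression (the subgroup of the
coset progression is itself a progression of rank one).
-/

set_option autoImplicit false

open Finset
open scoped Pointwise

namespace Pool.Agent.Q285.SD

open Pool.Agent.TH858

theorem ev_cons {N k : ℕ} (M : ZMod N) (v : Fin k → ZMod N) (m : Fin (k + 1) → ℤ) :
    GP.ev (Fin.cons M v : Fin (k + 1) → ZMod N) m =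
      (m 0 : ZMod N) * M + ∑ i, (m i.succ) • v i := by
  unfold GP.ev
  rw [Fin.sum_univ_succ]
  simp only [Fin.cons_zero, Fin.cons_succ, zsmul_eq_mul]

theorem cyc {N : ℕ} [NeZero N] {K : ℝ} {A : Finset (ZMod N)} (hA : A.Nonempty)
    (hK : ((A + A).card : ℝ) ≤ K * A.card) (hK1 : 1 ≤ K) :
    ∃ (d : ℕ) (a : Fin d → ZMod N) (L : Fin d → ℕ) (t : ZMod N),
      (d : ℝ) ≤ 300 * Real.log (2 * K) + 1 ∧ Set.InjOn (GP.ev a) (GP.box L) ∧
      ((GP.XX a L).card : ℝ) ≤ CK K * A.card ∧
      (A.card : ℝ) ≤ 2 * CK K * ((A.filter (fun y => y - t ∈ GP.XX a L)).card : ℝ) := by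
  classical
  have hNpos := NeZero.pos N
  obtain ⟨H, k, v, L, T, hk, hprop, hvol, hT, hcov⟩ := coset_gap hA hK hK1
  obtain ⟨h, hh⟩ : ∃ h : ℕ, h = Nat.card H := ⟨_, rfl⟩
  have hhpos : 0 < h := by rw [hh]; exact Nat.card_pos
  have hdvdh : h ∣ N := by
    have h1 := AddSubgroup.card_addSubgroup_dvd_card H
    rwa [Nat.card_zmod, ← hh] at h1
  obtain ⟨M, hNM⟩ := hdvdh
  have hdvd : M ∣ N := ⟨h, by rw [hNM, mul_comm]⟩
  have hMpos : 0 < M := by
    rcases Nat.eq_zero_or_pos M with h0 | h0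
    · rw [h0, mul_zero] at hNM; omega
    · exact h0
  have hmem := GP.mem_iff_cast H h M hh hNM hdvd
  have hMH : (M : ZMod N) ∈ H := by
    rw [hmem, map_natCast, ZMod.natCast_self]
  have hhM : (h : ZMod N) * (M : ZMod N) = 0 := by
    rw [← Nat.cast_mul, ← hNM, ZMod.natCast_self]
  obtain ⟨L0, hL0⟩ : ∃ L0 : ℕ, L0 = (h - 1) / 2 := ⟨_, rfl⟩
  have hL01 : 2 * L0 + 1 ≤ h := by omega
  have hL02 : h ≤ 2 * L0 + 2 := by omega
  -- elements of `H`
  have hHel : ∀ y ∈ H, ∃ c : ℤ, |c| ≤ (L0 : ℤ) ∧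
      (y = (c : ZMod N) * M ∨ y = (c : ZMod N) * M + M) := by
    intro y hy
    rw [hmem] at hy
    have h1 : M ∣ y.val := by
      rw [← ZMod.natCast_zmod_val y, map_natCast, ZMod.natCast_eq_zero_iff] at hy
      exact hy
    obtain ⟨j, hj⟩ := h1
    have hyv : y = (j : ZMod N) * (M : ZMod N) := by
      rw [← ZMod.natCast_zmod_val y, hj]
      push_cast
      ring
    have hjh : j < h := by
      have h2 := ZMod.val_lt y
      rw [hj, hNM, mul_comm] at h2
      exact Nat.lt_of_mul_lt_mul_right h2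
    by_cases h3 : j ≤ L0
    · refine ⟨(j : ℤ), ?_, Or.inl ?_⟩
      · rw [abs_of_nonneg (by positivity)]
        exact_mod_cast h3
      · rw [hyv]
        push_cast
        rfl
    · by_cases h4 : h ≤ j + L0
      · refine ⟨(j : ℤ) - h, ?_, Or.inl ?_⟩
        · rw [abs_le]
          constructor <;> omega
        · rw [hyv]
          push_cast
          rw [sub_mul, hhM, sub_zero]
      · have hjL : j = L0 + 1 := by omega
        refine ⟨(L0 : ℤ), ?_, Or.inr ?_⟩
        · rw [abs_of_nonneg (by positivity)]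
        · rw [hyv, hjL]
          push_cast
          ring
  refine ⟨k + 1, Fin.cons (M : ZMod N) v, Fin.cons L0 L, ?_⟩
  have hbox : ∀ m : Fin (k + 1) → ℤ, m ∈ GP.box (Fin.cons L0 L : Fin (k + 1) → ℕ) ↔
      |m 0| ≤ (L0 : ℤ) ∧ ∀ i : Fin k, |m i.succ| ≤ (L i : ℤ) := by
    intro m
    rw [GP.mem_box, Fin.forall_fin_succ]
    simp only [Fin.cons_zero, Fin.cons_succ]
  have hinj : Set.InjOn (GP.ev (Fin.cons (M : ZMod N) v : Fin (k + 1) → ZMod N))
      (GP.box (Fin.cons L0 L : Fin (k + 1) → ℕ)) := by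
    intro m hm m' hm' heq
    rw [Finset.mem_coe, hbox] at hm hm'
    rw [ev_cons, ev_cons] at heq
    have h1 : ∑ i, (m i.succ) • v i - ∑ i, (m' i.succ) • v i =
        ((m' 0 - m 0 : ℤ) : ZMod N) * (M : ZMod N) := by
      push_cast
      linear_combination heq
    have h2 : ((m' 0 - m 0 : ℤ) : ZMod N) * (M : ZMod N) ∈ H := by
      rw [← zsmul_eq_mul]
      exact H.zsmul_mem hMH _
    have h3 := hprop (fun i => m i.succ) (fun i => m' i.succ) hm.2 hm'.2 (by rw [h1]; exact h2)
    have h4 : ∀ i : Fin k, m i.succ = m' i.succ := fun i => congrFun h3 i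
    have h5 : (((m' 0 - m 0) * (M : ℤ) : ℤ) : ZMod N) = 0 := by
      have h6 : ∑ i, (m i.succ) • v i - ∑ i, (m' i.succ) • v i = 0 := by
        rw [sub_eq_zero]
        exact Finset.sum_congr rfl fun i _ => by rw [h4 i]
      rw [h6] at h1
      push_cast
      push_cast at h1
      exact h1.symm
    rw [ZMod.intCast_zmod_eq_zero_iff_dvd, hNM] at h5
    have h6 : ((h : ℤ)) ∣ (m' 0 - m 0) := by
      push_cast at h5
      exact Int.dvd_of_mul_dvd_mul_right (by exact_mod_cast hMpos.ne') h5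
    have h7 : |m' 0 - m 0| < (h : ℤ) := by
      have h8 := hm.1
      have h9 := hm'.1
      rw [abs_le] at h8 h9
      rw [abs_lt]
      constructor <;> omega
    have h8 := Int.eq_zero_of_abs_lt_dvd h6 h7
    funext i
    refine Fin.cases ?_ (fun i => h4 i) i
    omega
  -- the translates
  obtain ⟨T', hT'⟩ : ∃ T' : Finset (ZMod N), T' = T ∪ T.image (fun t => t + (M : ZMod N)) := ⟨_, rfl⟩
  have hT'card : (T'.card : ℝ) ≤ 2 * CK K := by
    have h1 : T'.card ≤ 2 * T.card := by
      rw [hT']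
      refine (Finset.card_union_le _ _).trans ?_
      have := Finset.card_image_le (s := T) (f := fun t => t + (M : ZMod N))
      omega
    have h2 : (T'.card : ℝ) ≤ 2 * T.card := by exact_mod_cast h1
    linarith
  have hsub : A ⊆ T'.biUnion (fun t => A.filter (fun y => y - t ∈
      GP.XX (Fin.cons (M : ZMod N) v : Fin (k + 1) → ZMod N) (Fin.cons L0 L))) := by
    intro a ha
    obtain ⟨t, ht, c, hc, y, hy, hay⟩ := hcov a ha
    obtain ⟨c0, hc0, hy0⟩ := hHel y hy
    have hin : ((c0 : ZMod N) * M + ∑ i, c i • v i) ∈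
        GP.XX (Fin.cons (M : ZMod N) v : Fin (k + 1) → ZMod N) (Fin.cons L0 L) := by
      unfold GP.XX
      rw [Finset.mem_image]
      refine ⟨Fin.cons c0 c, ?_, ?_⟩
      · rw [hbox]
        simp only [Fin.cons_zero, Fin.cons_succ]
        exact ⟨hc0, hc⟩
      · rw [ev_cons]
        simp only [Fin.cons_zero, Fin.cons_succ]
    rw [Finset.mem_biUnion]
    rcases hy0 with h1 | h1
    · refine ⟨t, ?_, ?_⟩
      · rw [hT']; exact Finset.mem_union_left _ ht
      · rw [Finset.mem_filter]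
        refine ⟨ha, ?_⟩
        have h2 : a - t = (c0 : ZMod N) * M + ∑ i, c i • v i := by
          rw [hay, h1]; ring
        rw [h2]; exact hin
    · refine ⟨t + M, ?_, ?_⟩
      · rw [hT']; exact Finset.mem_union_right _ (Finset.mem_image_of_mem _ ht)
      · rw [Finset.mem_filter]
        refine ⟨ha, ?_⟩
        have h2 : a - (t + M) = (c0 : ZMod N) * M + ∑ i, c i • v i := by
          rw [hay, h1]; ring
        rw [h2]; exact hin
  have hT'ne : T'.Nonempty := by
    obtain ⟨a, ha⟩ := hA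
    obtain ⟨t, ht, _⟩ := Finset.mem_biUnion.1 (hsub ha)
    exact ⟨t, ht⟩
  obtain ⟨t, ht, hmax⟩ := Finset.exists_max_image T' (fun t => (A.filter (fun y => y - t ∈
      GP.XX (Fin.cons (M : ZMod N) v : Fin (k + 1) → ZMod N) (Fin.cons L0 L))).card) hT'ne
  refine ⟨t, ?_, hinj, ?_, ?_⟩
  · push_cast
    linarith
  · have h1 : (GP.XX (Fin.cons (M : ZMod N) v : Fin (k + 1) → ZMod N) (Fin.cons L0 L)).card ≤
        (∏ i, (2 * L i + 1)) * h := by
      unfold GP.XX
      refine Finset.card_image_le.trans ?_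
      rw [GP.card_box, Fin.prod_univ_succ]
      simp only [Fin.cons_zero, Fin.cons_succ]
      rw [mul_comm]
      exact Nat.mul_le_mul_left _ hL01
    have h2 : ((GP.XX (Fin.cons (M : ZMod N) v : Fin (k + 1) → ZMod N) (Fin.cons L0 L)).card : ℝ) ≤
        ((∏ i, (2 * L i + 1) : ℕ) : ℝ) * (Nat.card H : ℝ) := by
      rw [← hh]
      exact_mod_cast h1
    exact h2.trans hvol
  · have h1 : A.card ≤ T'.card * (A.filter (fun y => y - t ∈
      GP.XX (Fin.cons (M : ZMod N) v : Fin (k + 1) → ZMod N) (Fin.cons L0 L))).card := by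
      refine (Finset.card_le_card hsub).trans (Finset.card_biUnion_le.trans ?_)
      refine (Finset.sum_le_card_nsmul T' _ _ hmax).trans ?_
      rw [smul_eq_mul]
    have h2 : (A.card : ℝ) ≤ (T'.card : ℝ) * ((A.filter (fun y => y - t ∈
      GP.XX (Fin.cons (M : ZMod N) v : Fin (k + 1) → ZMod N) (Fin.cons L0 L))).card : ℝ) := by
      exact_mod_cast h1
    exact h2.trans (mul_le_mul_of_nonneg_right hT'card (Nat.cast_nonneg _))

end Pool.Agent.Q285.SD
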