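import Pool.Agent.Q285.SD.Cyc
import Pool.Agent.TH858.GP.Dense2

/-!
Bohr sets in `2A - 2A` for sets `A` of small doubling in `ℤ/N`.
-/

set_option autoImplicit false

open scoped Pointwise

namespace Pool.Agent.Q285.SD.Main

open Pool.Agent Pool.Agent.TH858

/-- The Bohr set `B(Γ, ε) = {x ∈ ℤ/N : ‖γ x / N‖ ≤ ε for all γ ∈ Γ}`; the norm is the distance to the nearest
integer. -/
def bohr {N : ℕ} (Γ : Finset (ZMod N)) (ε : ℝ) : Set (ZMod N) :=
  {x | ∀ γ ∈ Γ, |((γ * x).val : ℝ) / (N : ℝ) - ((round (((γ * x).val : ℝ) / (N : ℝ)) : ℤ) : ℝ)| ≤ ε}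

/-- The set `2A - 2A`. -/
def twoAMinusTwoA {N : ℕ} (A : Finset (ZMod N)) : Set (ZMod N) :=
  {x | ∃ a₁ ∈ A, ∃ a₂ ∈ A, ∃ a₃ ∈ A, ∃ a₄ ∈ A, x = a₁ + a₂ - a₃ - a₄}

/-- `F(K) = (2K) ^ (68000 (1 + log (1 + log (2K))))`. -/
noncomputable def F (K : ℝ) : ℝ := (2 * K) ^ (68000 * (1 + Real.log (1 + Real.log (2 * K))))

theorem F_eq {K : ℝ} (hK : 1 ≤ K) : F K = Q285.SD.CK K ^ 4 := by
  unfold F Q285.SD.CK
  rw [← Real.rpow_natCast, ← Real.rpow_mul (by linarith)]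
  congr 1
  push_cast
  ring

theorem two_mul_le_CK {K : ℝ} (hK : 1 ≤ K) : 2 * K ≤ Q285.SD.CK K := by
  unfold Q285.SD.CK
  have h1 : 0 ≤ Real.log (2 * K) := Real.log_nonneg (by linarith)
  have h2 : 0 ≤ Real.log (1 + Real.log (2 * K)) := Real.log_nonneg (by linarith)
  calc 2 * K = (2 * K) ^ (1 : ℝ) := (Real.rpow_one _).symm
    _ ≤ (2 * K) ^ (17000 * (1 + Real.log (1 + Real.log (2 * K)))) :=
        Real.rpow_le_rpow_of_exponent_le (by linarith) (by linarith)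

/-- Sets of small doubling: there are absolute constants `C, c > 0` such that for every `N ≥ 1`, every
nonempty `A ⊆ ℤ/N` of density `α ≤ 1/2` and every `K` with `|A + A| ≤ K |A|` the set `2A - 2A` contains a Bohr set
`B(Γ, ε)` with `|Γ| ≤ C (log (1/α) + F(K))` and `ε ≥ c / (log (1/α) + F(K))`. -/
theorem small_doubling : ∃ C c : ℝ, 0 < C ∧ 0 < c ∧ ∀ N : ℕ, 0 < N → ∀ A : Finset (ZMod N), A.Nonempty →
    (A.card : ℝ) / (N : ℝ) ≤ 1 / 2 → ∀ K : ℝ, ((A + A).card : ℝ) ≤ K * A.card →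
    ∃ (Γ : Finset (ZMod N)) (ε : ℝ), 0 < ε ∧
      (Γ.card : ℝ) ≤ C * (Real.log ((N : ℝ) / (A.card : ℝ)) + F K) ∧
      c / (Real.log ((N : ℝ) / (A.card : ℝ)) + F K) ≤ ε ∧
      bohr Γ ε ⊆ twoAMinusTwoA A := by
  refine ⟨90000, 1 / 8000, by norm_num, by norm_num, ?_⟩
  intro N hN A hAne hα K hK
  have : NeZero N := ⟨hN.ne'⟩
  classical
  have hNpos : (0 : ℝ) < N := by exact_mod_cast hN
  have hApos : (0 : ℝ) < A.card := by exact_mod_cast hAne.card_pos
  have hK1 : 1 ≤ K := by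
    have h1 : A.card ≤ (A + A).card := Finset.card_le_card_add_left hAne
    have h2 : (A.card : ℝ) ≤ (A + A).card := by exact_mod_cast h1
    by_contra hcon
    push Not at hcon
    nlinarith
  obtain ⟨l, hl⟩ : ∃ l : ℝ, l = Real.log ((N : ℝ) / (A.card : ℝ)) := ⟨_, rfl⟩
  rw [← hl]
  have h2 : (2 : ℝ) ≤ (N : ℝ) / (A.card : ℝ) := by
    rw [div_le_iff₀ hNpos] at hα
    rw [le_div_iff₀ hApos]
    linarith
  have hl2 : Real.log 2 ≤ l := by
    rw [hl]
    exact Real.log_le_log (by norm_num) h2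
  have hlog2 := Real.log_two_gt_d9
  have hl0 : 0 < l := by linarith
  obtain ⟨X, hX⟩ : ∃ X : ℝ, X = Q285.SD.CK K := ⟨_, rfl⟩
  have hX1 : 1 ≤ X := by rw [hX]; exact Q285.SD.CK_ge_one hK1
  have hX2K : 2 * K ≤ X := by rw [hX]; exact two_mul_le_CK hK1
  have hFX : F K = X ^ 4 := by rw [hX]; exact F_eq hK1
  have hX2 : 1 ≤ X ^ 2 := by nlinarith
  have hX24 : X ^ 2 ≤ X ^ 4 := by nlinarith [mul_self_nonneg (X ^ 2)]
  have hXX2 : X ≤ X ^ 2 := by nlinarith
  obtain ⟨F', hF'⟩ : ∃ F' : ℝ, F' = X ^ 4 := ⟨_, rfl⟩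
  rw [hFX, ← hF']
  have hF1 : 1 ≤ F' := by rw [hF']; linarith
  have hXF : X ≤ F' := by rw [hF']; linarith
  have hX2F : X ^ 2 ≤ F' := by rw [hF']; exact hX24
  have hlog2K : Real.log (2 * K) ≤ F' := by
    have := Real.log_le_sub_one_of_pos (show 0 < 2 * K by linarith)
    linarith
  obtain ⟨d, a, L, t, hd, hinj, hcard, hcov⟩ := Q285.SD.cyc hAne hK hK1
  rw [← hX] at hcard hcov
  obtain ⟨A', hA'⟩ : ∃ A' : Finset (ZMod N), A' = A.filter fun y => y - t ∈ GP.XX a L := ⟨_, rfl⟩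
  rw [← hA'] at hcov
  have hA'sub : ∀ y ∈ A', y - t ∈ GP.XX a L := fun y hy => by
    rw [hA', Finset.mem_filter] at hy
    exact hy.2
  have hA'card : (A'.card : ℝ) ≤ (GP.XX a L).card := by
    have h1 : A'.card ≤ (GP.XX a L).card :=
      Finset.card_le_card_of_injOn (fun y => y - t) hA'sub (fun x _ y _ h => sub_left_injective h)
    exact_mod_cast h1
  have hδ : (0 : ℝ) < 1 / (2 * X ^ 2) := by positivity
  have hdens : 1 / (2 * X ^ 2) * ((GP.XX a L).card : ℝ) ≤ A'.card := by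
    rw [div_mul_eq_mul_div, one_mul, div_le_iff₀ (by positivity)]
    calc ((GP.XX a L).card : ℝ) ≤ X * A.card := hcard
      _ ≤ X * (2 * X * A'.card) := mul_le_mul_of_nonneg_left hcov (by linarith)
      _ = A'.card * (2 * X ^ 2) := by ring
  obtain ⟨R, hR⟩ : ∃ R : ℝ, R = 1000 * (l + F') := ⟨_, rfl⟩
  have hlF : 0 < l + F' := by linarith
  have hRd : (d : ℝ) + 2 ≤ R := by
    rw [hR]
    linarith
  have hδR : 1 ≤ 1 / (2 * X ^ 2) * R := by
    rw [div_mul_eq_mul_div, one_mul, le_div_iff₀ (by positivity), hR]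
    linarith
  obtain ⟨Γ, hΓ, hΓ'⟩ := GP.dense a L hinj R _ hRd hδ hδR A' t hA'sub hdens
  have hXXpos : (0 : ℝ) < (GP.XX a L).card := by
    have h1 : 0 < X * (2 * X ^ 2) := by positivity
    by_contra hcon
    push Not at hcon
    have h3 : (A'.card : ℝ) ≤ 0 := hA'card.trans hcon
    have h4 : 2 * X * (A'.card : ℝ) ≤ 0 := mul_nonpos_of_nonneg_of_nonpos (by linarith) h3
    linarith
  have hlogN : Real.log ((N : ℝ) / ((GP.XX a L).card : ℝ)) ≤ 2 * F' + l := by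
    have h3 : (N : ℝ) / ((GP.XX a L).card : ℝ) ≤ 2 * X * ((N : ℝ) / (A.card : ℝ)) := by
      rw [div_le_iff₀ hXXpos]
      have h5 : (A.card : ℝ) ≤ 2 * X * (GP.XX a L).card :=
        hcov.trans (mul_le_mul_of_nonneg_left hA'card (by linarith))
      calc (N : ℝ) = (N : ℝ) / (A.card : ℝ) * A.card := by field_simp
        _ ≤ (N : ℝ) / (A.card : ℝ) * (2 * X * (GP.XX a L).card) :=
            mul_le_mul_of_nonneg_left h5 (by positivity)
        _ = 2 * X * ((N : ℝ) / (A.card : ℝ)) * (GP.XX a L).card := by ring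
    calc Real.log ((N : ℝ) / ((GP.XX a L).card : ℝ)) ≤ Real.log (2 * X * ((N : ℝ) / (A.card : ℝ))) :=
          Real.log_le_log (by positivity) h3
      _ = Real.log (2 * X) + l := by rw [Real.log_mul (by positivity) (by positivity), hl]
      _ ≤ 2 * F' + l := by
          have := Real.log_le_sub_one_of_pos (show 0 < 2 * X by linarith)
          linarith
  have hlogR : 1 ≤ Real.log R := by
    have h3 : Real.log (Real.exp 1) ≤ Real.log R := by
      apply Real.log_le_log (Real.exp_pos 1)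
      have := Real.exp_one_lt_d9
      rw [hR]
      linarith
    rwa [Real.log_exp] at h3
  refine ⟨Γ, 1 / (8 * R), ?_, ?_, ?_, ?_⟩
  · have : 0 < R := by rw [hR]; positivity
    positivity
  · have h5 : Real.log ((N : ℝ) / ((GP.XX a L).card : ℝ)) / Real.log R ≤ 2 * F' + l := by
      rw [div_le_iff₀ (by linarith)]
      have h6 : 0 ≤ 2 * F' + l := by linarith
      nlinarith
    have h6 : 32 / (1 / (2 * X ^ 2)) ^ 2 = 128 * F' := by
      rw [hF']
      field_simp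
      ring
    rw [h6] at hΓ
    calc (Γ.card : ℝ) ≤ _ := hΓ
      _ ≤ 295 * (300 * Real.log (2 * K) + 1) + 1 + 5 * (2 * F' + l) + 128 * F' := by
          linarith
      _ ≤ 90000 * (l + F') := by linarith
  · rw [hR, div_le_div_iff₀ hlF (by positivity)]
    linarith
  · intro x hx
    obtain ⟨a₁, h3, a₂, h4, a₃, h5, a₄, h6, h7⟩ := hΓ' x fun g hg => hx g hg
    have hsub : A' ⊆ A := by rw [hA']; exact Finset.filter_subset _ _
    exact ⟨a₁, hsub h3, a₂, hsub h4, a₃, hsub h5, a₄, hsub h6, h7⟩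

end Pool.Agent.Q285.SD.Main
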