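import Pool.Agent.H112R2.FinalGap

/-!
Sets of small doubling in a finite abelian group are covered by few translates of a proper coset
progression: the form of the near-polynomial Freiman-Ruzsa theorem of `H112R2` for groups with
torsion in which the progression is proper and a box.
-/

set_option autoImplicit false

open Finset
open scoped Pointwise

namespace Pool.Agent.Q285.SD

open H112

/-- the constant of the structure theorem -/
noncomputable def CK (K : ℝ) : ℝ := (2 * K) ^ (17000 * (1 + Real.log (1 + Real.log (2 * K))))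

theorem CK_ge_one {K : ℝ} (hK : 1 ≤ K) : 1 ≤ CK K := by
  unfold CK
  apply Real.one_le_rpow (by linarith)
  have h1 : 0 ≤ Real.log (2 * K) := Real.log_nonneg (by linarith)
  have h2 : 0 ≤ Real.log (1 + Real.log (2 * K)) := Real.log_nonneg (by linarith)
  positivity

variable {G : Type*} [AddCommGroup G]

/-- the characters of the quotient by the annihilator -/
def SQ (S : Set (G →+ UnitAddCircle)) : Set ((G ⧸ ann S) →+ UnitAddCircle) :=
  {g | g.comp (QuotientAddGroup.mk' (ann S)) ∈ S}

theorem lift_mem (S : Set (G →+ UnitAddCircle)) {γ : G →+ UnitAddCircle} (hγ : γ ∈ S) :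
    ∃ g ∈ SQ S, ∀ x : G, g (QuotientAddGroup.mk' (ann S) x) = γ x := by
  refine ⟨QuotientAddGroup.lift (ann S) γ (fun x hx => hx γ hγ), ?_, ?_⟩
  · show (QuotientAddGroup.lift (ann S) γ _).comp (QuotientAddGroup.mk' (ann S)) ∈ S
    have h : (QuotientAddGroup.lift (ann S) γ (fun x hx => hx γ hγ)).comp
        (QuotientAddGroup.mk' (ann S)) = γ := by
      ext x
      rfl
    rw [h]
    exact hγ
  · intro x
    rfl

theorem mem_bohr_SQ (S : Set (G →+ UnitAddCircle)) (r : ℝ) (x : G) :
    QuotientAddGroup.mk' (ann S) x ∈ bohr (SQ S) r ↔ x ∈ bohr S r := by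
  constructor
  · intro h γ hγ
    obtain ⟨g, hg, hg2⟩ := lift_mem S hγ
    rw [← hg2 x]
    exact h g hg
  · intro h g hg
    exact h _ hg

theorem ann_SQ (S : Set (G →+ UnitAddCircle)) : ann (SQ S) = ⊥ := by
  rw [AddSubgroup.eq_bot_iff_forall]
  intro x hx
  obtain ⟨y, rfl⟩ := QuotientAddGroup.mk'_surjective (ann S) x
  have hy : y ∈ ann S := by
    intro γ hγ
    obtain ⟨g, hg, hg2⟩ := lift_mem S hγ
    rw [← hg2 y]
    exact hx g hg
  exact (QuotientAddGroup.eq_zero_iff y).2 hy

theorem bohr_SQ_eq (S : Set (G →+ UnitAddCircle)) (r : ℝ) :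
    bohr (SQ S) r = QuotientAddGroup.mk' (ann S) '' bohr S r := by
  ext x
  obtain ⟨y, rfl⟩ := QuotientAddGroup.mk'_surjective (ann S) x
  rw [mem_bohr_SQ]
  constructor
  · intro h
    exact ⟨y, h, rfl⟩
  · rintro ⟨z, hz, hzy⟩
    rw [← mem_bohr_SQ, ← hzy, mem_bohr_SQ]
    exact hz

theorem card_preimage (H : AddSubgroup G) (t : Set (G ⧸ H)) :
    Nat.card ((QuotientAddGroup.mk' H) ⁻¹' t) = Nat.card H * Nat.card t := by
  rw [← Nat.card_prod]
  exact Nat.card_congr (QuotientAddGroup.preimageMkEquivAddSubgroupProdSet H t)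

/-- the number of elements of a union of cosets -/
theorem card_bohr [Finite G] (S : Set (G →+ UnitAddCircle)) (r : ℝ) :
    (bohr (SQ S) r).ncard * Nat.card (ann S) = (bohr S r).ncard := by
  classical
  have hfib : bohr S r = (QuotientAddGroup.mk' (ann S)) ⁻¹' (bohr (SQ S) r) := by
    ext x
    rw [Set.mem_preimage, mem_bohr_SQ]
  rw [hfib, ← Nat.card_coe_set_eq, ← Nat.card_coe_set_eq, mul_comm]
  exact (card_preimage (ann S) (bohr (SQ S) r)).symm

/-- the number of elements of `A` compared with the number of cosets met by `A` -/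
theorem card_le_image [Finite G] (H : AddSubgroup G) [DecidableEq (G ⧸ H)] (A : Finset G) :
    A.card ≤ Nat.card H * (A.image (QuotientAddGroup.mk' H)).card := by
  classical
  have h1 : (A : Set G) ⊆ (QuotientAddGroup.mk' H) ⁻¹'
      (A.image (QuotientAddGroup.mk' H) : Set (G ⧸ H)) := by
    intro x hx
    rw [Set.mem_preimage, Finset.mem_coe, Finset.mem_image]
    exact ⟨x, hx, rfl⟩
  have h2 := Set.ncard_le_ncard h1 (Set.toFinite _)
  rw [Set.ncard_coe_finset] at h2
  refine h2.trans (le_of_eq ?_)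
  rw [← Nat.card_coe_set_eq]
  have h3 := card_preimage H
    ((A.image (QuotientAddGroup.mk' H) : Finset (G ⧸ H)) : Set (G ⧸ H))
  rw [Nat.card_coe_set_eq ((A.image (QuotientAddGroup.mk' H) : Finset (G ⧸ H)) : Set (G ⧸ H)),
    Set.ncard_coe_finset] at h3
  exact h3

/-- **Near-polynomial Freiman-Ruzsa theorem with proper coset progressions.** -/
theorem coset_gap [Finite G] [DecidableEq G] {K : ℝ} {A : Finset G} (hA : A.Nonempty)
    (hK : ((A + A).card : ℝ) ≤ K * A.card) (hK1 : 1 ≤ K) :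
    ∃ (H : AddSubgroup G) (k : ℕ) (v : Fin k → G) (L : Fin k → ℕ) (T : Finset G),
      (k : ℝ) ≤ 300 * Real.log (2 * K) ∧
      (∀ a b : Fin k → ℤ, (∀ i, |a i| ≤ L i) → (∀ i, |b i| ≤ L i) →
        ∑ i, a i • v i - ∑ i, b i • v i ∈ H → a = b) ∧
      ((∏ i, (2 * L i + 1) : ℕ) : ℝ) * (Nat.card H : ℝ) ≤ CK K * A.card ∧
      (T.card : ℝ) ≤ CK K ∧
      ∀ a ∈ A, ∃ t ∈ T, ∃ c : Fin k → ℤ, (∀ i, |c i| ≤ L i) ∧ ∃ h ∈ H,
        a = t + ∑ i, c i • v i + h := by
  classical
  have : AddGroup.FG G := AddGroup.fg_of_finite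
  obtain ⟨κ, hκ⟩ : ∃ κ : ℝ, κ = Real.log (2 * K) := ⟨_, rfl⟩
  have hκlog2 : Real.log 2 ≤ κ := by
    rw [hκ]; exact Real.log_le_log (by norm_num) (by linarith)
  have hκ69 : (0.69 : ℝ) < κ := lt_of_lt_of_le log_two_gt hκlog2
  have hlogκ : 0 ≤ Real.log (1 + κ) := Real.log_nonneg (by linarith)
  obtain ⟨S, X, V, ρ, m, N, ψ, hfin, hV1, hsize, hρ0, hρ12, hX, hN, h1, h2, hm, hXV⟩ :=
    structure_thm hA hK hK1 hκ
  set q := QuotientAddGroup.mk' (ann S) with hq
  have hHpos : (0 : ℝ) < (Nat.card (ann S) : ℝ) := by exact_mod_cast Nat.card_pos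
  have hAc : (0 : ℝ) < A.card := by exact_mod_cast hA.card_pos
  have hAle : (A.card : ℝ) ≤ Nat.card (ann S) * ((A.image q).card : ℝ) := by
    exact_mod_cast card_le_image (ann S) A
  have hcb : ∀ r, ((bohr (SQ S) r).ncard : ℝ) * (Nat.card (ann S) : ℝ) = ((bohr S r).ncard : ℝ) :=
    fun r => by exact_mod_cast card_bohr S r
  -- application of the torsion-free step to the quotient
  have hsize' : ((bohr (SQ S) (1 / 6)).ncard : ℝ) ≤ V * ((A.image q).card : ℝ) := by
    have h3 := hcb (1 / 6)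
    have h4 : ((bohr (SQ S) (1 / 6)).ncard : ℝ) * (Nat.card (ann S) : ℝ) ≤
        V * ((A.image q).card : ℝ) * (Nat.card (ann S) : ℝ) := by
      rw [h3]
      refine hsize.trans ?_
      calc V * (A.card : ℝ) ≤ V * (Nat.card (ann S) * ((A.image q).card : ℝ)) := by
            apply mul_le_mul_of_nonneg_left hAle (by linarith)
        _ = _ := by ring
    exact le_of_mul_le_mul_right h4 hHpos
  have hX' : ∀ a ∈ A.image q, ∃ x ∈ X.image q, a - x ∈ bohr (SQ S) ρ := by
    intro a ha
    obtain ⟨b, hb, rfl⟩ := Finset.mem_image.1 ha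
    obtain ⟨x, hx, hbx⟩ := hX b hb
    refine ⟨q x, Finset.mem_image_of_mem q hx, ?_⟩
    rw [← map_sub]
    exact (mem_bohr_SQ S ρ _).2 hbx
  obtain ⟨k, v, L, T, hk, hprop, hvol, hT, hcov⟩ := gap_final (SQ S) (Set.toFinite _)
    (A := A.image q) (hA.image _) hV1 hsize' hρ0 hρ12 hX' N (q.comp ψ) hN
    (fun c hc r hr => by
      rw [← h1 c hc r hr]
      exact mem_bohr_SQ S r (ψ c))
    (fun x hx => by
      obtain ⟨y, rfl⟩ := QuotientAddGroup.mk'_surjective (ann S) x
      obtain ⟨c, hc, hyc⟩ := h2 y ((mem_bohr_SQ S ρ y).1 hx)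
      refine ⟨c, hc, ?_⟩
      have h3 : q (y - ψ c) = 0 := (QuotientAddGroup.eq_zero_iff _).2 hyc
      rw [map_sub] at h3
      show q y - q (ψ c) ∈ ann (SQ S)
      rw [h3]
      exact AddSubgroup.zero_mem _)
    (ann_SQ S)
  -- numerical bounds
  have hCKle : (X.card : ℝ) * V ≤ CK K := by
    unfold CK
    rw [← exp_eq_rpow hK1, ← hκ]
    refine hXV.trans (Real.exp_le_exp.2 ?_)
    have h10 : 0 ≤ κ * Real.log (1 + κ) := mul_nonneg (by linarith) hlogκ
    nlinarith
  have hTle : (T.card : ℝ) ≤ CK K := by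
    unfold CK
    rw [← exp_eq_rpow hK1, ← hκ]
    have h3 : ((4 * (m : ℝ) + 1)) ^ m ≤
        Real.exp ((300 * κ) * (8 * (1 + Real.log (1 + κ)))) :=
      pow_le_exp (by positivity) (log_4m_le hκ69 hm) hm (by positivity)
    have h4 : (12 * (m : ℝ) ^ 3) ^ m ≤
        Real.exp ((300 * κ) * (20 * (1 + Real.log (1 + κ)))) := by
      rcases Nat.eq_zero_or_pos m with h0 | hpos
      · subst h0
        rw [pow_zero]
        exact Real.one_le_exp (by positivity)
      · have hm1 : (0 : ℝ) < m := by exact_mod_cast hpos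
        exact pow_le_exp (by positivity) (log_12m_le hκ69 hm hpos) hm (by positivity)
    have hV0 : 0 ≤ V := by linarith
    have hXX : ((X.image q).card : ℝ) ≤ X.card := by exact_mod_cast Finset.card_image_le
    calc (T.card : ℝ) ≤ (X.image q).card * (V * (4 * m + 1) ^ m * (12 * m ^ 3) ^ m) := hT
      _ ≤ X.card * (V * (4 * m + 1) ^ m * (12 * m ^ 3) ^ m) :=
          mul_le_mul_of_nonneg_right hXX (by positivity)
      _ = (X.card * V) * ((4 * m + 1) ^ m * (12 * m ^ 3) ^ m) := by ring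
      _ ≤ Real.exp (8000 * κ * (1 + Real.log (1 + κ))) *
            (Real.exp ((300 * κ) * (8 * (1 + Real.log (1 + κ)))) *
              Real.exp ((300 * κ) * (20 * (1 + Real.log (1 + κ))))) := by
          apply mul_le_mul hXV _ (by positivity) (by positivity)
          exact mul_le_mul h3 h4 (by positivity) (by positivity)
      _ = Real.exp (8000 * κ * (1 + Real.log (1 + κ)) +
            ((300 * κ) * (8 * (1 + Real.log (1 + κ))) +
              (300 * κ) * (20 * (1 + Real.log (1 + κ))))) := by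
          rw [← Real.exp_add, ← Real.exp_add]
      _ ≤ Real.exp (17000 * κ * (1 + Real.log (1 + κ))) := by
          apply Real.exp_le_exp.2
          have h10 : 0 ≤ κ * Real.log (1 + κ) := mul_nonneg (by linarith) hlogκ
          nlinarith
  have hvol' : ((∏ i, (2 * L i + 1) : ℕ) : ℝ) * (Nat.card (ann S) : ℝ) ≤ CK K * A.card := by
    have h3 : ((∏ i, (2 * L i + 1) : ℕ) : ℝ) ≤ ((A.image q).card : ℝ) := by exact_mod_cast hvol
    have h4 : ((A.image q).card : ℝ) ≤ X.card * ((bohr (SQ S) (1 / 6)).ncard : ℝ) := by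
      have h5 : (A.image q : Set (G ⧸ ann S)) ⊆
          ((X.image q) + (Set.toFinite (bohr (SQ S) (1 / 6))).toFinset : Finset (G ⧸ ann S)) := by
        intro a ha
        obtain ⟨x, hx, hax⟩ := hX' a ha
        rw [Finset.mem_coe, Finset.mem_add]
        refine ⟨x, hx, a - x, ?_, by abel⟩
        rw [Set.Finite.mem_toFinset]
        intro g hg
        exact (hax g hg).trans (by linarith)
      have h6 : (A.image q).card ≤ ((X.image q) +
          (Set.toFinite (bohr (SQ S) (1 / 6))).toFinset : Finset (G ⧸ ann S)).card :=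
        Finset.card_le_card (by exact_mod_cast h5)
      have h7 := h6.trans (Finset.card_add_le)
      have h8 : (Set.toFinite (bohr (SQ S) (1 / 6))).toFinset.card = (bohr (SQ S) (1 / 6)).ncard :=
        (Set.ncard_eq_toFinset_card _ _).symm
      rw [h8] at h7
      have h9 : (X.image q).card ≤ X.card := Finset.card_image_le
      have h10 : (A.image q).card ≤ X.card * (bohr (SQ S) (1 / 6)).ncard :=
        h7.trans (Nat.mul_le_mul_right _ h9)
      exact_mod_cast h10
    calc ((∏ i, (2 * L i + 1) : ℕ) : ℝ) * (Nat.card (ann S) : ℝ)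
        ≤ (X.card * ((bohr (SQ S) (1 / 6)).ncard : ℝ)) * (Nat.card (ann S) : ℝ) :=
          mul_le_mul_of_nonneg_right (h3.trans h4) hHpos.le
      _ = X.card * ((bohr S (1 / 6)).ncard : ℝ) := by rw [mul_assoc, hcb]
      _ ≤ X.card * (V * A.card) := mul_le_mul_of_nonneg_left hsize (Nat.cast_nonneg _)
      _ = (X.card * V) * A.card := by ring
      _ ≤ CK K * A.card := mul_le_mul_of_nonneg_right hCKle hAc.le
  -- representatives
  choose rep hrep using (QuotientAddGroup.mk'_surjective (ann S))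
  have hrep' : ∀ x, q (rep x) = x := hrep
  refine ⟨ann S, k, fun i => rep (v i), L, T.image rep, ?_, ?_, hvol', ?_, ?_⟩
  · rw [← hκ]
    have : (k : ℝ) ≤ m := by exact_mod_cast hk
    exact this.trans hm
  · intro a b ha hb hab
    refine hprop a b ha hb ?_
    have h3 : q (∑ i, a i • rep (v i) - ∑ i, b i • rep (v i)) = 0 :=
      (QuotientAddGroup.eq_zero_iff _).2 hab
    rw [map_sub, map_sum, map_sum, sub_eq_zero] at h3
    simpa only [map_zsmul, hrep'] using h3
  · have h3 : (((T.image rep).card : ℕ) : ℝ) ≤ T.card := by exact_mod_cast Finset.card_image_le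
    exact h3.trans hTle
  · intro a ha
    obtain ⟨t, ht, c, hc, hac⟩ := hcov (q a) (Finset.mem_image_of_mem q ha)
    refine ⟨rep t, Finset.mem_image_of_mem rep ht, c, hc,
      a - (rep t + ∑ i, c i • rep (v i)), ?_, by abel⟩
    have h3 : q (a - (rep t + ∑ i, c i • rep (v i))) = 0 := by
      rw [map_sub, map_add, map_sum, hrep', hac]
      simp only [map_zsmul, hrep', sub_self]
    exact (QuotientAddGroup.eq_zero_iff _).1 h3

end Pool.Agent.Q285.SD
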